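import Pool.Agent.Helper60.KS.St

/-! KC-3 (MP_768c9c_nt): counting zeros by mean values. -/

set_option autoImplicit false
open Filter Topology MeasureTheory
open scoped Classical

namespace Pool.Agent.Helper67.KC

open Pool.Agent.Helper60.KS

theorem cpow_exp {n : ℕ} (hn : 0 < n) (ρ : ℂ) :
    (n : ℂ) ^ (-ρ) = Complex.exp (((-Real.log n : ℝ) : ℂ) * ρ) := by
  have hn' : (n : ℂ) ≠ 0 := by exact_mod_cast hn.ne'
  have hlog : Complex.log (n : ℂ) = ((Real.log n : ℝ) : ℂ) := by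
    rw [← Complex.ofReal_natCast, Complex.ofReal_log (Nat.cast_nonneg n)]
  rw [Complex.cpow_def_of_ne_zero hn', hlog]
  congr 1
  push_cast
  ring

/-- integers at logarithmic distance at most `1/T` -/
theorem close_of_log {n m : ℕ} {T R : ℝ} (hn : 0 < n) (hm : 0 < m) (hT : 0 < T)
    (hnR : (n : ℝ) ≤ R) (hmR : (m : ℝ) ≤ R) (h : |Real.log n - Real.log m| ≤ 1 / T) :
    |(n : ℝ) - m| ≤ R / T := by
  have key : ∀ a b : ℝ, 0 < a → 0 < b → a ≤ R → Real.log a - Real.log b ≤ 1 / T →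
      a - b ≤ R / T := by
    intro a b ha hb haR hab
    have h1 : Real.log (b / a) ≥ -(1 / T) := by
      rw [Real.log_div hb.ne' ha.ne']; linarith
    have h2 : Real.log (b / a) ≤ b / a - 1 := Real.log_le_sub_one_of_pos (by positivity)
    have h3 : 1 - b / a ≤ 1 / T := by linarith
    have h4 : a - b = a * (1 - b / a) := by field_simp
    have h5 : a * (1 - b / a) ≤ a * (1 / T) := mul_le_mul_of_nonneg_left h3 ha.le
    have h6 : a * (1 / T) ≤ R * (1 / T) := mul_le_mul_of_nonneg_right haR (by positivity)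
    rw [h4]
    calc a * (1 - b / a) ≤ R * (1 / T) := h5.trans h6
      _ = R / T := by ring
  have hn' : (0 : ℝ) < n := by exact_mod_cast hn
  have hm' : (0 : ℝ) < m := by exact_mod_cast hm
  have h1 := abs_le.1 h
  rw [abs_le]
  constructor
  · have := key m n hm' hn' hmR (by linarith)
    linarith
  · exact key n m hn' hm' hnR (by linarith)

theorem card_close (S : Finset ℕ) (n : ℕ) (R : ℝ) (hR : 0 ≤ R) :
    ((S.filter (fun m : ℕ => |(n : ℝ) - (m : ℝ)| ≤ R)).card : ℝ) ≤ 2 * R + 1 := by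
  have h1 : (S.filter (fun m : ℕ => |(n : ℝ) - (m : ℝ)| ≤ R)) ⊆ Finset.Icc (n - ⌊R⌋₊) (n + ⌊R⌋₊) := by
    intro m hm
    have h2 := abs_le.1 (Finset.mem_filter.1 hm).2
    rw [Finset.mem_Icc]
    constructor
    · have : (n : ℝ) ≤ m + R := by linarith
      have h3 : n - m ≤ ⌊R⌋₊ := by
        apply Nat.le_floor
        rcases le_total m n with h | h
        · rw [Nat.cast_sub h]; linarith
        · rw [Nat.sub_eq_zero_of_le h]; simpa using hR
      omega
    · have h3 : m - n ≤ ⌊R⌋₊ := by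
        apply Nat.le_floor
        rcases le_total n m with h | h
        · rw [Nat.cast_sub h]; linarith
        · rw [Nat.sub_eq_zero_of_le h]; simpa using hR
      omega
  have h2 := Finset.card_le_card h1
  rw [Nat.card_Icc] at h2
  have h3 : (S.filter (fun m : ℕ => |(n : ℝ) - (m : ℝ)| ≤ R)).card ≤ 2 * ⌊R⌋₊ + 1 := by omega
  have h4 := Nat.floor_le hR
  have h5 : ((S.filter (fun m : ℕ => |(n : ℝ) - (m : ℝ)| ≤ R)).card : ℝ) ≤ 2 * ⌊R⌋₊ + 1 := by exact_mod_cast h3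
  linarith

theorem mvCount (hD : DiscMV) : MVCount := by
  obtain ⟨C, hC, hD⟩ := hD
  intro h hh
  have hhr : (1 : ℝ) ≤ h := by exact_mod_cast hh
  refine ⟨C * (2 * (h : ℝ) ^ 4), by positivity, ?_⟩
  intro Z g Q B V b b' T r hQ hT hr hr2 hb hbb hbb' hb1 hV hB hg hZ hZ1 hVρ
  have hQr : (1 : ℝ) ≤ Q := by exact_mod_cast hQ
  have hQ0 : (0 : ℝ) < Q := by linarith
  have hT0 : 0 < T := by linarith
  set S := Finset.Ioc Q (h * Q) with hS
  have hSpos : ∀ n ∈ S, 0 < n := fun n hn => by rw [hS, Finset.mem_Ioc] at hn; omega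
  set M : ℝ := (B * B * ((h * (Q : ℝ) ^ (r - b)) * (h * (Q : ℝ) ^ (r - b)))) *
    ((h * Q) * (2 * (h * Q / T) + 1)) with hM
  have hpair : ∀ σ : ℝ, b - r ≤ σ → σ ≤ b' + r →
      ∑ j ∈ S, ∑ k ∈ S, (if |(-Real.log j) - (-Real.log k)| ≤ 1 / T then
        ‖g j‖ * ‖g k‖ * Real.exp (σ * ((-Real.log j) + (-Real.log k))) else 0) ≤ M := by
    intro σ h1 _
    have hexp : ∀ n ∈ S, Real.exp (σ * (-Real.log n)) ≤ h * (Q : ℝ) ^ (r - b) := by
      intro n hn
      have hn0 : 0 < n := hSpos n hn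
      have hnr : (0 : ℝ) < n := by exact_mod_cast hn0
      have hn1 : (1 : ℝ) ≤ n := by exact_mod_cast hn0
      have hn' := Finset.mem_Ioc.1 hn
      have e : Real.exp (σ * (-Real.log n)) = (n : ℝ) ^ (-σ) := by
        rw [Real.rpow_def_of_pos hnr]; congr 1; ring
      rw [e]
      have h2 : (n : ℝ) ^ (-σ) ≤ (n : ℝ) ^ (r - b) :=
        Real.rpow_le_rpow_of_exponent_le hn1 (by linarith)
      refine h2.trans ?_
      have hQpos : 0 < (Q : ℝ) ^ (r - b) := by positivity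
      rcases le_total 0 (r - b) with h3 | h3
      · have h4 : (n : ℝ) ≤ h * Q := by exact_mod_cast hn'.2
        calc (n : ℝ) ^ (r - b) ≤ (h * Q) ^ (r - b) := Real.rpow_le_rpow hnr.le h4 h3
          _ = (h : ℝ) ^ (r - b) * (Q : ℝ) ^ (r - b) := Real.mul_rpow (by linarith) hQ0.le
          _ ≤ (h : ℝ) ^ (1 : ℝ) * (Q : ℝ) ^ (r - b) :=
              mul_le_mul_of_nonneg_right
                (Real.rpow_le_rpow_of_exponent_le hhr (by linarith)) hQpos.le
          _ = h * (Q : ℝ) ^ (r - b) := by rw [Real.rpow_one]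
      · have h4 : (Q : ℝ) ≤ n := by exact_mod_cast hn'.1.le
        calc (n : ℝ) ^ (r - b) ≤ (Q : ℝ) ^ (r - b) := Real.rpow_le_rpow_of_nonpos hQ0 h4 h3
          _ = 1 * (Q : ℝ) ^ (r - b) := by ring
          _ ≤ h * (Q : ℝ) ^ (r - b) := by gcongr
    have hQp : 0 ≤ (h : ℝ) * (Q : ℝ) ^ (r - b) := by positivity
    have hterm : ∀ j ∈ S, ∑ k ∈ S, (if |(-Real.log j) - (-Real.log k)| ≤ 1 / T then
        ‖g j‖ * ‖g k‖ * Real.exp (σ * ((-Real.log j) + (-Real.log k))) else 0) ≤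
        (B * B * ((h * (Q : ℝ) ^ (r - b)) * (h * (Q : ℝ) ^ (r - b)))) * (2 * (h * Q / T) + 1) := by
      intro j hj
      have hj' := Finset.mem_Ioc.1 hj
      have hjR : (j : ℝ) ≤ h * Q := by exact_mod_cast hj'.2
      have hle : ∀ k ∈ S, (if |(-Real.log j) - (-Real.log k)| ≤ 1 / T then
          ‖g j‖ * ‖g k‖ * Real.exp (σ * ((-Real.log j) + (-Real.log k))) else 0) ≤
          if |(j : ℝ) - k| ≤ h * Q / T then
            B * B * ((h * (Q : ℝ) ^ (r - b)) * (h * (Q : ℝ) ^ (r - b))) else 0 := by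
        intro k hk
        have hk' := Finset.mem_Ioc.1 hk
        have hkR : (k : ℝ) ≤ h * Q := by exact_mod_cast hk'.2
        by_cases hc : |(-Real.log j) - (-Real.log k)| ≤ 1 / T
        · rw [if_pos hc]
          have hc' : |Real.log j - Real.log k| ≤ 1 / T := by
            rw [show Real.log j - Real.log k = -((-Real.log j) - (-Real.log k)) by ring, abs_neg]
            exact hc
          rw [if_pos (close_of_log (hSpos j hj) (hSpos k hk) hT0 hjR hkR hc')]
          have e : Real.exp (σ * ((-Real.log j) + (-Real.log k))) =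
              Real.exp (σ * (-Real.log j)) * Real.exp (σ * (-Real.log k)) := by
            rw [← Real.exp_add]; congr 1; ring
          rw [e]
          have := hexp j hj
          have := hexp k hk
          have := hg j
          have := hg k
          gcongr
        · rw [if_neg hc]
          split_ifs <;> positivity
      refine (Finset.sum_le_sum hle).trans ?_
      rw [← Finset.sum_filter, Finset.sum_const, nsmul_eq_mul, mul_comm]
      exact mul_le_mul_of_nonneg_left (card_close S j _ (by positivity)) (by positivity)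
    refine (Finset.sum_le_card_nsmul _ _ _ hterm).trans ?_
    rw [nsmul_eq_mul, hM]
    have hcard : (S.card : ℝ) ≤ h * Q := by
      rw [hS, Nat.card_Ioc]
      have : h * Q - Q ≤ h * Q := Nat.sub_le _ _
      exact_mod_cast this
    have h5 : 0 ≤ (B * B * ((h * (Q : ℝ) ^ (r - b)) * (h * (Q : ℝ) ^ (r - b)))) *
        (2 * (h * Q / T) + 1) := by positivity
    calc (S.card : ℝ) * ((B * B * ((h * (Q : ℝ) ^ (r - b)) * (h * (Q : ℝ) ^ (r - b)))) *
          (2 * (h * Q / T) + 1)) ≤ (h * Q) * ((B * B * ((h * (Q : ℝ) ^ (r - b)) *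
            (h * (Q : ℝ) ^ (r - b)))) * (2 * (h * Q / T) + 1)) := by gcongr
      _ = _ := by ring
  have h1 := hD ℕ S g (fun n => -Real.log n) T b b' r M Z hT hr hr2 hbb hbb' hZ hZ1 hpair
  have h2 : (Z.card : ℝ) * V ^ 2 ≤ ∑ ρ ∈ Z, ‖∑ j ∈ S, g j * Complex.exp
      (((-Real.log j : ℝ) : ℂ) * ρ)‖ ^ 2 := by
    have h3 : ∀ ρ ∈ Z, V ^ 2 ≤ ‖∑ j ∈ S, g j * Complex.exp (((-Real.log j : ℝ) : ℂ) * ρ)‖ ^ 2 := by
      intro ρ hρ
      have h4 := hVρ ρ hρ
      have e : DP g Q h ρ = ∑ j ∈ S, g j * Complex.exp (((-Real.log j : ℝ) : ℂ) * ρ) := by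
        unfold DP
        apply Finset.sum_congr rfl
        intro n hn
        rw [cpow_exp (hSpos n hn)]
      rw [e] at h4
      exact pow_le_pow_left₀ hV.le h4 2
    have := Finset.card_nsmul_le_sum _ _ _ h3
    rwa [nsmul_eq_mul] at this
  refine (h2.trans h1).trans ?_
  have e1 : (Q : ℝ) ^ (1 - 2 * b + 2 * r) = Q * ((Q : ℝ) ^ (r - b) * (Q : ℝ) ^ (r - b)) := by
    rw [← Real.rpow_add hQ0]
    nth_rewrite 2 [← Real.rpow_one (Q : ℝ)]
    rw [← Real.rpow_add hQ0]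
    congr 1
    ring
  rw [e1, hM]
  have hq : 0 ≤ (Q : ℝ) ^ (r - b) := by positivity
  have e2 : C / r ^ 2 * T * ((B * B * ((h * (Q : ℝ) ^ (r - b)) * (h * (Q : ℝ) ^ (r - b)))) *
      ((h * Q) * (2 * (h * Q / T) + 1))) =
      (C * B ^ 2 / r ^ 2 * (Q * ((Q : ℝ) ^ (r - b) * (Q : ℝ) ^ (r - b)))) *
        ((h : ℝ) ^ 3 * (2 * h * Q + T)) := by
    field_simp
  rw [e2]
  have e3 : (h : ℝ) ^ 3 * (2 * h * Q + T) ≤ 2 * (h : ℝ) ^ 4 * (T + Q) := by
    have h3 : (0 : ℝ) ≤ (h : ℝ) ^ 3 := by positivity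
    have h4 : T ≤ 2 * h * T := by nlinarith
    calc (h : ℝ) ^ 3 * (2 * h * Q + T) ≤ (h : ℝ) ^ 3 * (2 * h * Q + 2 * h * T) := by gcongr
      _ = _ := by ring
  calc (C * B ^ 2 / r ^ 2 * (Q * ((Q : ℝ) ^ (r - b) * (Q : ℝ) ^ (r - b)))) *
        ((h : ℝ) ^ 3 * (2 * h * Q + T)) ≤
      (C * B ^ 2 / r ^ 2 * (Q * ((Q : ℝ) ^ (r - b) * (Q : ℝ) ^ (r - b)))) *
        (2 * (h : ℝ) ^ 4 * (T + Q)) := by gcongr
    _ = _ := by ring

end Pool.Agent.Helper67.KC
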